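import Pool.Agent.BKG.Conv
import Pool.Agent.BKG.Uniq

/-!
# The Lie algebra dimensions predicted by the conjecture of Broadhurst and Kreimer are nonnegative

Let `O = s^3 / (1 - s^2)`, `S = s^12 / ((1 - s^4) (1 - s^6))` and `B = 1 - O t + S t^2 (1 - t^2)`.  The
motivic conjecture of Broadhurst and Kreimer says that `(1 + E t) / B`, `E = s^2 / (1 - s^2)`, is the
generating series of the dimensions of the depth-graded pieces of the algebra of motivic multiple
zeta values.  Write `B` as a product of powers `(1 - s^N t^d) ^ e(N,d)`.  By the theorem of Poincare,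
Birkhoff and Witt the conjecture says that `e(N,d)` is the dimension of the part of weight `N` and
depth `d` of the depth-graded motivic Lie algebra.

We prove that the exponents `e(N,d)` are natural numbers, and that `e(N,d) > 0` if and only if
`d ≥ 1`, `N ≥ 3 d`, `N ≡ d` modulo 2 and `(N,d)` is not `(6,2)` or `(9,3)`.

Proof.
* Split `O = T + U` with `T = (s^3 + s^5 + s^9) / (1 - s^12)`, `U = (s^7 + s^11 + s^13) / (1 - s^12)`.
  Then `Y = T U - S = (s^10 + 2 s^16) / (1 - s^12)^2 + s^14 / (1 - s^12)` has nonnegative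
  coefficients, and `B = (1 - T t) (1 - U t) (1 - W)` with
  `W = (Y t^2 + S t^4) / ((1 - T t) (1 - U t))`.  Moreover `1 - T t = (1 - s^3 t) (1 - V)` with
  `V = (s^5 + s^9 + s^15) t / ((1 - s^12) (1 - s^3 t))`.  So `B = (1 - s^3 t) (1 - V) (1 - U t) (1 - W)`
  and `V`, `U t`, `W` have nonnegative coefficients.
* Elimination (`BKG.exists_fac`): let `V` be any series with nonnegative coefficients without
  constant term.  If the monomial `m` occurs in `V` then `1 - V = (1 - m) (1 - V')` where
  `V' = (V - m) / (1 - m) = (V - m) (1 + m + m^2 + ...)` again has nonnegative coefficients, and the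
  coefficients of `V'` are at least those of `V - m`.  Repeating this, weight by weight, one obtains
  `1 - V` as an infinite product of factors `1 - m`, where `m` occurs at least as often as its
  coefficient in `V` says, and all these `m` are products of monomials of `V`.
* The supports of `V`, `U t`, `W` give the statement on the positive exponents.
* The exponents are unique, since they can be read off weight by weight (`BKG.unique`).
-/

set_option autoImplicit false

namespace Pool.Agent.Results.MP_a6e4a6_nt.PredictedGenerators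

open PowerSeries

/-- Let `O = s^3 / (1 - s^2)` and `S = s^12 / ((1 - s^4) (1 - s^6))` in `ℤ[t]⟦s⟧`.  There are natural
numbers `e N d` such that `1 - O t + S t^2 (1 - t^2)` is the product of the `(1 - s^N t^d) ^ e N d` with
`N ≥ 1` and `d ≤ N` (modulo `s^(n+1)` only the factors with `N ≤ n` matter), `e N d > 0` if and only if
`d ≥ 1`, `N ≥ 3 d`, `N ≡ d` modulo 2 and `(N, d) ≠ (6, 2), (9, 3)`, and the `e N d` with `N ≥ 1` and
`d ≤ N` are the only exponents with this product. -/
theorem result :
    ∀ (O S : PowerSeries (Polynomial ℤ)),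
    (1 - X ^ 2) * O = X ^ 3 →
    (1 - X ^ 4) * (1 - X ^ 6) * S = X ^ 12 →
    ∃ e : ℕ → ℕ → ℕ,
      (∀ n : ℕ, X ^ (n + 1) ∣
        (1 - O * C Polynomial.X + S * C Polynomial.X ^ 2 * (1 - C Polynomial.X ^ 2)) -
          ∏ N ∈ Finset.Icc 1 n, ∏ d ∈ Finset.range (N + 1),
            (1 - C (Polynomial.X ^ d) * X ^ N) ^ e N d) ∧
      (∀ N d : ℕ, 0 < e N d ↔
        1 ≤ d ∧ 3 * d ≤ N ∧ N % 2 = d % 2 ∧ ¬ (N = 6 ∧ d = 2) ∧ ¬ (N = 9 ∧ d = 3)) ∧
      ∀ e' : ℕ → ℕ → ℕ,
        (∀ n : ℕ, X ^ (n + 1) ∣
          (1 - O * C Polynomial.X + S * C Polynomial.X ^ 2 * (1 - C Polynomial.X ^ 2)) -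
            ∏ N ∈ Finset.Icc 1 n, ∏ d ∈ Finset.range (N + 1),
              (1 - C (Polynomial.X ^ d) * X ^ N) ^ e' N d) →
        ∀ N d : ℕ, 1 ≤ N → d ≤ N → e' N d = e N d := by
  intro O S hO hS
  obtain ⟨D, hD, hm⟩ := BKG.exists_exponents hO hS
  have key : ∀ n : ℕ, X ^ (n + 1) ∣
      (1 - O * C Polynomial.X + S * C Polynomial.X ^ 2 * (1 - C Polynomial.X ^ 2)) -
        ∏ N ∈ Finset.Icc 1 n, ∏ d ∈ Finset.range (N + 1),
          (1 - C (Polynomial.X ^ d) * X ^ N) ^ (D N).count d := by
    intro n
    have h := hD n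
    have h2 : ∏ N ∈ Finset.Icc 1 n, BKG.P N (D N) = ∏ N ∈ Finset.Icc 1 n,
        ∏ d ∈ Finset.range (N + 1), (1 - C (Polynomial.X ^ d) * X ^ N) ^ (D N).count d := by
      refine Finset.prod_congr rfl fun N _ => BKG.P_eq N (D N) fun d hd => ?_
      have := (hm N d).1 hd
      omega
    rw [h2] at h
    exact h
  refine ⟨fun N d => (D N).count d, key, ?_, ?_⟩
  · intro N d
    rw [Multiset.count_pos]
    exact hm N d
  · intro e' he' N d hN hd
    exact BKG.unique he' key N hN d hd

end Pool.Agent.Results.MP_a6e4a6_nt.PredictedGenerators
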